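import Mathlib
import Pool.Agent.H69.CB

open Pool.Agent.H69.CB SimpleGraph

namespace Pool.Agent.Results.MP_40378c_al.Invariance

/-- Having connected boundaries is invariant under (a) change of finite generating set,
(b) bi-Lipschitz equivalence and (c) quasi-isometry of Cayley graphs. -/
theorem result (G : Type*) [Group G] (S : Set G) (hS : S.Finite) (hSg : Subgroup.closure S = ⊤)
    (hCB : ConnectedBoundaries (mulCayley S)) :
    (∀ T : Set G, T.Finite → Subgroup.closure T = ⊤ → ConnectedBoundaries (mulCayley T)) ∧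
    ∀ (G' : Type*) [Group G'] (T : Set G'), T.Finite → Subgroup.closure T = ⊤ →
      (BiLipschitz (mulCayley S) (mulCayley T) → ConnectedBoundaries (mulCayley T)) ∧
      (QuasiIsometric (mulCayley S) (mulCayley T) → ConnectedBoundaries (mulCayley T)) :=
  ⟨fun _ hT hTg => qi_inv (cay_conn hSg) (cay_conn hTg) (cay_fin hS) (cay_fin hT)
      (bl_qi (cay_bl hSg hTg hS hT)) hCB,
    fun _ _ _ hT hTg =>
      ⟨fun h => qi_inv (cay_conn hSg) (cay_conn hTg) (cay_fin hS) (cay_fin hT) (bl_qi h) hCB,
        fun h => qi_inv (cay_conn hSg) (cay_conn hTg) (cay_fin hS) (cay_fin hT) h hCB⟩⟩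

end Pool.Agent.Results.MP_40378c_al.Invariance
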